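import Mathlib

namespace Pool.Agent.Results.MP_2ae182_co.Small

open Equiv

/-- The map on positions reversing the first `k` of `n` positions. -/
def revFun (n k : ℕ) (i : Fin n) : Fin n :=
  if h : (i : ℕ) < k ∧ k ≤ n then ⟨k - 1 - i, by omega⟩ else i

theorem revFun_invol (n k : ℕ) : Function.Involutive (revFun n k) := by
  intro i
  unfold revFun
  by_cases h : (i : ℕ) < k ∧ k ≤ n
  · have h2 : k - 1 - (i : ℕ) < k ∧ k ≤ n := by omega
    simp only [h, h2, and_self, dite_true]
    apply Fin.ext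
    simp only
    omega
  · simp [h]

/-- The prefix reversal `r_k` as an element of the symmetric group. -/
def rev (n k : ℕ) : Perm (Fin n) := (revFun_invol n k).toPerm _

theorem rev_apply (n k : ℕ) (i : Fin n) : rev n k i = revFun n k i := rfl

theorem rev_mul_self (n k : ℕ) : rev n k * rev n k = 1 := by
  ext i
  simp [rev_apply, revFun_invol n k i]

/-- The pancake graph on the symmetric group. -/
def pancake (n : ℕ) : SimpleGraph (Perm (Fin n)) where
  Adj π σ := ∃ k, 2 ≤ k ∧ k ≤ n ∧ σ = π * rev n k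
  symm := ⟨by
    rintro π σ ⟨k, h1, h2, rfl⟩
    exact ⟨k, h1, h2, by rw [mul_assoc, rev_mul_self, mul_one]⟩⟩
  loopless := ⟨by
    rintro π ⟨k, h1, h2, h⟩
    have h3 : rev n k = 1 := by
      have := congrArg (fun z => π⁻¹ * z) h
      simpa using this.symm
    have h4 := congrArg (fun g : Perm (Fin n) => (g ⟨0, by omega⟩ : ℕ)) h3
    simp only [rev_apply, revFun, Perm.coe_one, id] at h4
    rw [dif_pos ⟨by omega, h2⟩] at h4
    simp only at h4
    omega⟩

section General

variable {V : Type} [Fintype V]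

/-- A Hamiltonian cycle of a graph on `N` vertices, written as an `N`-periodic sequence. -/
structure IsHamCycle (G : SimpleGraph V) (x : ℕ → V) : Prop where
  three : 3 ≤ Fintype.card V
  per : ∀ i, x (i + Fintype.card V) = x i
  inj : ∀ i < Fintype.card V, ∀ j < Fintype.card V, x i = x j → i = j
  adj : ∀ i, G.Adj (x i) (x (i + 1))

/-- The cycle `x` is `k`-symmetric. -/
def KSymm (G : SimpleGraph V) (x : ℕ → V) (k : ℕ) : Prop :=
  k ∣ Fintype.card V ∧ ∃ f : G ≃g G, ∀ i, f (x i) = x (i + Fintype.card V / k)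

/-- The compression factor of a cycle. -/
noncomputable def kappaC (G : SimpleGraph V) (x : ℕ → V) : ℕ := sSup {k | KSymm G x k}

/-- The Hamilton compression of a graph. -/
noncomputable def kappa (G : SimpleGraph V) : ℕ :=
  sSup {t | ∃ x, IsHamCycle G x ∧ t = kappaC G x}

theorem kSymm_bdd (G : SimpleGraph V) (x : ℕ → V) (h3 : 3 ≤ Fintype.card V) :
    BddAbove {k | KSymm G x k} :=
  ⟨Fintype.card V, fun _ hk => Nat.le_of_dvd (by omega) hk.1⟩

theorem kappaC_le (G : SimpleGraph V) (x : ℕ → V) (B : ℕ) (h : ∀ k, KSymm G x k → k ≤ B) :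
    kappaC G x ≤ B := csSup_le' h

theorem le_kappa {G : SimpleGraph V} {x : ℕ → V} {k : ℕ} (hx : IsHamCycle G x)
    (hk : KSymm G x k) : k ≤ kappa G := by
  have h1 : k ≤ kappaC G x := le_csSup (kSymm_bdd G x hx.three) hk
  refine h1.trans (le_csSup ⟨Fintype.card V, ?_⟩ ⟨x, hx, rfl⟩)
  rintro t ⟨y, hy, rfl⟩
  exact kappaC_le G y _ fun k hk => Nat.le_of_dvd (by have := hy.three; omega) hk.1

theorem kappa_le {G : SimpleGraph V} {B : ℕ}
    (h : ∀ x, IsHamCycle G x → ∀ k, KSymm G x k → k ≤ B) : kappa G ≤ B := by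
  apply csSup_le'
  rintro t ⟨y, hy, rfl⟩
  exact kappaC_le G y _ (h y hy)

end General

/-! ### Sequences of prefix reversals -/

/-- One-line notation. -/
def line {n : ℕ} (π : Perm (Fin n)) : List ℕ := List.ofFn fun i => (π i : ℕ)

/-- Reverse the first `k` entries. -/
def flipL (k : ℕ) (l : List ℕ) : List ℕ := (l.take k).reverse ++ l.drop k

theorem line_inj {n : ℕ} {π σ : Perm (Fin n)} (h : line π = line σ) : π = σ := by
  have := List.ofFn_injective h
  ext i
  exact congrFun this i

theorem line_mul_rev {n : ℕ} (π : Perm (Fin n)) (k : ℕ) (hk : k ≤ n) :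
    line (π * rev n k) = flipL k (line π) := by
  show line (π * rev n k) = ((line π).take k).reverse ++ (line π).drop k
  apply List.ext_getElem
  · simp [line]; omega
  · intro i h1 h2
    have hi : i < n := by simpa [line] using h1
    rw [List.getElem_append]
    by_cases hik : i < k
    · rw [dif_pos (by simp [line]; omega)]
      rw [List.getElem_reverse, List.getElem_take]
      simp [line, rev_apply, revFun, hik, hk]
    · rw [dif_neg (by simp [line]; omega)]
      rw [List.getElem_drop]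
      simp [line, rev_apply, revFun, hik]
      have : k ≤ i := by omega
      simp [hk, this]

/-- The walk from the identity with flips `w`. -/
def seq (n : ℕ) (w : ℕ → ℕ) : ℕ → Perm (Fin n)
  | 0 => 1
  | i + 1 => seq n w i * rev n (w i)

theorem seq_add (n : ℕ) (w : ℕ → ℕ) (m : ℕ) (hw : ∀ i, w (i + m) = w i) (i : ℕ) :
    seq n w (i + m) = seq n w m * seq n w i := by
  induction i with
  | zero => simp [seq]
  | succ i ih =>
    rw [show i + 1 + m = (i + m) + 1 by ring, seq, ih, hw, seq, mul_assoc]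

/-- Left translation as an automorphism of the pancake graph. -/
def leftAut (n : ℕ) (g : Perm (Fin n)) : pancake n ≃g pancake n where
  toEquiv := Equiv.mulLeft g
  map_rel_iff' := by
    intro a b
    constructor
    · rintro ⟨k, h1, h2, h⟩
      refine ⟨k, h1, h2, ?_⟩
      have := congrArg (fun z => g⁻¹ * z) h
      simpa [mul_assoc] using this
    · rintro ⟨k, h1, h2, h⟩
      exact ⟨k, h1, h2, by simp [h, mul_assoc]⟩

/-- Test that no entry of the list repeats, keeping a bit set of the entries seen. -/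
def chk : List ℕ → ℕ → Bool
  | [], _ => true
  | r :: l, acc => !(acc.testBit r) && chk l (acc ||| (1 <<< r))

theorem chk_spec (l : List ℕ) : ∀ acc, chk l acc = true →
    l.Nodup ∧ ∀ r ∈ l, acc.testBit r = false := by
  induction l with
  | nil => intro acc _; simp
  | cons r l ih =>
    intro acc h
    simp only [chk, Bool.and_eq_true, Bool.not_eq_true'] at h
    obtain ⟨h1, h2⟩ := ih _ h.2
    have h3 : ∀ s ∈ l, acc.testBit s = false ∧ s ≠ r := by
      intro s hs
      have h4 := h2 s hs
      rw [Nat.testBit_lor, Bool.or_eq_false_iff] at h4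
      refine ⟨h4.1, ?_⟩
      rintro rfl
      have h5 := h4.2
      simp [Nat.testBit_shiftLeft] at h5
    refine ⟨List.nodup_cons.2 ⟨fun hr => (h3 r hr).2 rfl, h1⟩, ?_⟩
    intro s hs
    rcases List.mem_cons.1 hs with rfl | hs
    · exact h.1
    · exact (h3 s hs).1

/-- A numerical code of a list (base `b`). -/
def code (b : ℕ) : List ℕ → ℕ
  | [] => 0
  | x :: l => x + b * code b l

/-- The codes met by the walk with flips `w` from `cur`. -/
def walk (b : ℕ) : List ℕ → List ℕ → List ℕ
  | _, [] => []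
  | cur, f :: w => code b cur.tail :: walk b (flipL f cur) w

theorem walk_eq (n b : ℕ) (w : ℕ → ℕ) (hw : ∀ i, w i ≤ n) (m : ℕ) : ∀ i,
    walk b (line (seq n w i)) ((List.range' i m).map w) =
      (List.range' i m).map (fun t => code b (line (seq n w t)).tail) := by
  induction m with
  | zero => intro i; simp [walk]
  | succ m ih =>
    intro i
    rw [List.range'_succ, List.map_cons, walk, List.map_cons, ← ih (i + 1), seq,
      line_mul_rev _ _ (hw i)]

theorem foldl_eq (n : ℕ) (w : ℕ → ℕ) (hw : ∀ i, w i ≤ n) (m : ℕ) : ∀ i,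
    ((List.range' i m).map w).foldl (fun l f => flipL f l) (line (seq n w i)) =
      line (seq n w (i + m)) := by
  induction m with
  | zero => intro i; simp
  | succ m ih =>
    intro i
    rw [List.range'_succ, List.map_cons, List.foldl_cons, ← line_mul_rev _ _ (hw i)]
    have := ih (i + 1)
    rw [seq] at this
    rw [this]
    congr 2
    ring

theorem rep_eq (wd : List ℕ) (k : ℕ) : ∀ i, i % wd.length = 0 →
    (List.range' i (k * wd.length)).map (fun i => wd.getD (i % wd.length) 2) =
      (List.replicate k wd).flatten := by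
  induction k with
  | zero => intro i _; simp
  | succ k ih =>
    intro i hi
    rw [show (k + 1) * wd.length = wd.length + k * wd.length by ring, List.replicate_succ,
      List.flatten_cons, ← ih (i + wd.length) (by simp [hi]), ← List.range'_append_1,
      List.map_append]
    congr 1
    apply List.ext_getElem
    · simp
    · intro j h1 h2
      have hj : j < wd.length := h2
      simp only [List.getElem_map, List.getElem_range']
      have h3 : (i + 1 * j) % wd.length = j := by
        rw [Nat.add_mod, hi, one_mul, Nat.zero_add, Nat.mod_mod, Nat.mod_eq_of_lt hj]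
      rw [h3, List.getD_eq_getElem _ _ hj]

theorem line_one (n : ℕ) : line (1 : Perm (Fin n)) = List.range n := by
  apply List.ext_getElem
  · simp [line]
  · intro i h1 h2
    simp [line]

theorem le_kappa_of_check (n b : ℕ) (wd : List ℕ) (k : ℕ)
    (hcard : Fintype.card (Perm (Fin n)) = k * wd.length)
    (h3 : 3 ≤ Fintype.card (Perm (Fin n)))
    (hwd : ∀ f ∈ wd, 2 ≤ f ∧ f ≤ n)
    (hchk : chk (walk b (List.range n) ((List.replicate k wd).flatten)) 0 = true)
    (hfin : ((List.replicate k wd).flatten).foldl (fun l f => flipL f l) (List.range n)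
      = List.range n) : k ≤ kappa (pancake n) := by
  have hk : 0 < k := by
    rcases Nat.eq_zero_or_pos k with h | h
    · subst h; omega
    · exact h
  have hm : 0 < wd.length := by
    rcases Nat.eq_zero_or_pos wd.length with h | h
    · rw [h] at hcard; omega
    · exact h
  set w : ℕ → ℕ := fun i => wd.getD (i % wd.length) 2 with hwdef
  have hw2 : ∀ i, 2 ≤ w i ∧ w i ≤ n := by
    intro i
    have hi : i % wd.length < wd.length := Nat.mod_lt _ hm
    simp only [hwdef]
    rw [List.getD_eq_getElem _ _ hi]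
    exact hwd _ (List.getElem_mem hi)
  have hwle : ∀ i, w i ≤ n := fun i => (hw2 i).2
  have hper : ∀ i, w (i + wd.length) = w i := by
    intro i; simp [hwdef]
  have hperN : ∀ i, w (i + k * wd.length) = w i := by
    intro i; simp [hwdef]
  have hrep := rep_eq wd k 0 (by simp)
  rw [← hrep] at hchk hfin
  have h0 : line (seq n w 0) = List.range n := by rw [seq, line_one]
  have hw1 := walk_eq n b w hwle (k * wd.length) 0
  have hf1 := foldl_eq n w hwle (k * wd.length) 0
  rw [h0] at hw1 hf1
  have hN : seq n w (k * wd.length) = 1 := by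
    apply line_inj
    rw [line_one, ← hfin, ← hwdef, hf1, Nat.zero_add]
  have hnodup := (chk_spec _ _ hchk).1
  rw [← hwdef, hw1] at hnodup
  have hinj : ∀ i < k * wd.length, ∀ j < k * wd.length, seq n w i = seq n w j → i = j := by
    intro i hi j hj hij
    refine List.inj_on_of_nodup_map hnodup ?_ ?_ ?_
    · simp [List.mem_range'_1]; omega
    · simp [List.mem_range'_1]; omega
    · simp only [hij]
  have hseqN : ∀ i, seq n w (i + k * wd.length) = seq n w i := by
    intro i
    rw [seq_add n w _ hperN, hN, one_mul]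
  have hham : IsHamCycle (pancake n) (seq n w) := by
    refine ⟨h3, ?_, ?_, ?_⟩
    · intro i; rw [hcard]; exact hseqN i
    · rw [hcard]; exact hinj
    · intro i; exact ⟨w i, (hw2 i).1, (hw2 i).2, rfl⟩
  refine le_kappa hham ⟨⟨wd.length, hcard⟩, leftAut n (seq n w wd.length), ?_⟩
  intro i
  rw [hcard, Nat.mul_div_cancel_left _ hk, seq_add n w _ hper]
  rfl

/-! ### Automorphisms of the pancake graph preserve the labels of edges -/

open Classical in
/-- The number of walks of length `L` from `x` to `y`. -/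
noncomputable def cnt {V : Type} [Fintype V] (G : SimpleGraph V) (L : ℕ) (x y : V) : ℕ :=
  ((G.adjMatrix ℕ) ^ L) x y

open Classical in
theorem cnt_aut {V : Type} [Fintype V] (G : SimpleGraph V) (f : G ≃g G) (L : ℕ) :
    ∀ x y, cnt G L (f x) (f y) = cnt G L x y := by
  induction L with
  | zero =>
    intro x y
    simp [cnt, Matrix.one_apply]
  | succ L ih =>
    intro x y
    unfold cnt at ih ⊢
    rw [pow_succ', Matrix.mul_apply, Matrix.mul_apply, ← Equiv.sum_comp f.toEquiv]
    apply Finset.sum_congr rfl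
    intro z _
    have h1 := ih z y
    have h2 : G.Adj (f x) (f z) ↔ G.Adj x z := f.map_adj_iff
    simp only [SimpleGraph.adjMatrix_apply]
    show (if G.Adj (f x) (f z) then 1 else 0) * _ = _
    rw [show ((G.adjMatrix ℕ) ^ L) (f.toEquiv z) (f y) = ((G.adjMatrix ℕ) ^ L) z y from h1]
    simp [h2]

open Classical in
theorem cnt_symm {V : Type} [Fintype V] (G : SimpleGraph V) (L : ℕ) (x y : V) :
    cnt G L x y = cnt G L y x := by
  unfold cnt
  have h : ((G.adjMatrix ℕ) ^ L).transpose = (G.adjMatrix ℕ) ^ L := by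
    rw [Matrix.transpose_pow, SimpleGraph.transpose_adjMatrix]
  conv_lhs => rw [← h, Matrix.transpose_apply]

theorem rev_inj {n k l : ℕ} (hk : 2 ≤ k ∧ k ≤ n) (hl : 2 ≤ l ∧ l ≤ n) (h : rev n k = rev n l) :
    k = l := by
  have h4 := congrArg (fun g : Perm (Fin n) => (g ⟨0, by omega⟩ : ℕ)) h
  simp only [rev_apply, revFun] at h4
  rw [dif_pos ⟨by omega, hk.2⟩, dif_pos ⟨by omega, hl.2⟩] at h4
  simp only at h4
  omega

open Classical in
theorem cnt_succ_sum {V : Type} [Fintype V] (G : SimpleGraph V) (L : ℕ) (x y : V) :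
    cnt G (L + 1) x y = ∑ z, if G.Adj x z then cnt G L z y else 0 := by
  unfold cnt
  rw [pow_succ', Matrix.mul_apply]
  apply Finset.sum_congr rfl
  intro z _
  rw [SimpleGraph.adjMatrix_apply]
  split <;> simp

open Classical in
theorem cnt_add {V : Type} [Fintype V] (G : SimpleGraph V) (L M : ℕ) (x y : V) :
    cnt G (L + M) x y = ∑ z, cnt G L x z * cnt G M z y := by
  unfold cnt
  rw [pow_add, Matrix.mul_apply]

open Classical in
theorem cnt_zero {V : Type} [Fintype V] (G : SimpleGraph V) (x y : V) :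
    cnt G 0 x y = if x = y then 1 else 0 := by
  unfold cnt
  rw [pow_zero, Matrix.one_apply]

open Classical in
theorem cnt_succ (n L : ℕ) (π σ : Perm (Fin n)) :
    cnt (pancake n) (L + 1) π σ =
      ((List.range' 2 (n - 1)).map (fun k => cnt (pancake n) L (π * rev n k) σ)).sum := by
  rw [cnt_succ_sum]
  have h1 : ∀ z, (if (pancake n).Adj π z then cnt (pancake n) L z σ else 0) =
      if z ∈ (Finset.Icc 2 n).image (fun k => π * rev n k) then
        cnt (pancake n) L z σ else 0 := by
    intro z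
    have : (pancake n).Adj π z ↔ z ∈ (Finset.Icc 2 n).image (fun k => π * rev n k) := by
      simp only [Finset.mem_image, Finset.mem_Icc]
      constructor
      · rintro ⟨k, h1, h2, h3⟩; exact ⟨k, ⟨h1, h2⟩, h3.symm⟩
      · rintro ⟨k, ⟨h1, h2⟩, h3⟩; exact ⟨k, h1, h2, h3.symm⟩
    simp only [this]
  rw [Finset.sum_congr rfl fun z _ => h1 z, ← Finset.sum_filter, Finset.filter_mem_eq_inter,
    Finset.univ_inter, Finset.sum_image]
  · have h2 : Finset.Icc 2 n = (List.range' 2 (n - 1)).toFinset := by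
      ext k; simp only [Finset.mem_Icc, List.mem_toFinset, List.mem_range'_1]; omega
    rw [h2, List.sum_toFinset _ List.nodup_range']
  · intro k hk l hl h
    simp only [Finset.coe_Icc, Set.mem_Icc] at hk hl
    exact rev_inj hk hl (mul_left_cancel h)

/-- All codes reached by words of length `L`. -/
def reach (n b : ℕ) : ℕ → List ℕ → List ℕ
  | 0, a => [code b a]
  | L + 1, a => (List.range' 2 (n - 1)).flatMap (fun k => reach n b L (flipL k a))

/-- Number of coincidences of `z` with entries of the list. -/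
def hits (z : ℕ) : List ℕ → ℕ
  | [] => 0
  | u :: l => (bif Nat.beq z u then 1 else 0) + hits z l

/-- Number of coincidences between two lists. -/
def hits2 : List ℕ → List ℕ → ℕ
  | [], _ => 0
  | z :: l, m => hits z m + hits2 l m

theorem code_inj (b : ℕ) : ∀ l m : List ℕ, l.length = m.length → (∀ x ∈ l, x < b) →
    (∀ x ∈ m, x < b) → code b l = code b m → l = m := by
  intro l
  induction l with
  | nil => intro m h _ _ _; exact (List.length_eq_zero_iff.1 h.symm).symm
  | cons x l ih =>
    intro m h h1 h2 h3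
    cases m with
    | nil => simp at h
    | cons y m =>
      simp only [code] at h3
      have hx : x < b := h1 x (by simp)
      have hy : y < b := h2 y (by simp)
      have h4 : x = y := by
        have := congrArg (· % b) h3
        simpa [Nat.add_mul_mod_self_left, Nat.mod_eq_of_lt hx, Nat.mod_eq_of_lt hy] using this
      subst h4
      have h5 : code b l = code b m := by
        have : b * code b l = b * code b m := by omega
        exact Nat.eq_of_mul_eq_mul_left (by omega) this
      rw [ih m (by simpa using h) (fun z hz => h1 z (by simp [hz]))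
        (fun z hz => h2 z (by simp [hz])) h5]

theorem code_line_inj {n : ℕ} {π σ : Perm (Fin n)} (h : code n (line π) = code n (line σ)) :
    π = σ := by
  apply line_inj
  apply code_inj n _ _ (by simp [line]) _ _ h
  · intro x hx; simp only [line, List.mem_ofFn] at hx; obtain ⟨i, rfl⟩ := hx; exact (π i).2
  · intro x hx; simp only [line, List.mem_ofFn] at hx; obtain ⟨i, rfl⟩ := hx; exact (σ i).2

theorem hits_append (z : ℕ) (l m : List ℕ) : hits z (l ++ m) = hits z l + hits z m := by
  induction l with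
  | nil => simp [hits]
  | cons u l ih => simp [hits, ih, add_assoc]

theorem hits_flatMap (z : ℕ) (ks : List ℕ) (F : ℕ → List ℕ) :
    hits z (ks.flatMap F) = (ks.map fun k => hits z (F k)).sum := by
  induction ks with
  | nil => simp [hits]
  | cons k ks ih => simp [hits_append, ih]

theorem hits2_append (l l' m : List ℕ) : hits2 (l ++ l') m = hits2 l m + hits2 l' m := by
  induction l with
  | nil => simp [hits2]
  | cons u l ih => simp [hits2, ih, add_assoc]

theorem hits2_flatMap (m : List ℕ) (ks : List ℕ) (F : ℕ → List ℕ) :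
    hits2 (ks.flatMap F) m = (ks.map fun k => hits2 (F k) m).sum := by
  induction ks with
  | nil => simp [hits2]
  | cons k ks ih => simp [hits2_append, ih]

theorem mem_range'_le {n k : ℕ} (h : k ∈ List.range' 2 (n - 1)) : k ≤ n := by
  rw [List.mem_range'_1] at h; omega

theorem cnt_eq_hits (n L : ℕ) : ∀ π σ : Perm (Fin n),
    cnt (pancake n) L π σ = hits (code n (line σ)) (reach n n L (line π)) := by
  induction L with
  | zero =>
    intro π σ
    rw [cnt_zero]
    simp only [reach, hits, add_zero]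
    by_cases h : π = σ
    · subst h; simp
    · rw [if_neg h]
      have : code n (line σ) ≠ code n (line π) := fun h2 => h (code_line_inj h2).symm
      have h3 : Nat.beq (code n (line σ)) (code n (line π)) = false := by
        rw [← Bool.not_eq_true, Nat.beq_eq]; exact this
      rw [h3]; rfl
  | succ L ih =>
    intro π σ
    rw [cnt_succ, reach, hits_flatMap]
    congr 1
    apply List.map_congr_left
    intro k hk
    rw [ih, line_mul_rev _ _ (mem_range'_le hk)]

theorem cnt_eq_hits2 (n L M : ℕ) : ∀ π σ : Perm (Fin n),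
    cnt (pancake n) (L + M) π σ = hits2 (reach n n L (line π)) (reach n n M (line σ)) := by
  induction L with
  | zero =>
    intro π σ
    rw [Nat.zero_add, cnt_symm, cnt_eq_hits]
    simp [reach, hits2]
  | succ L ih =>
    intro π σ
    rw [show L + 1 + M = L + M + 1 by ring, cnt_succ, reach, hits2_flatMap]
    congr 1
    apply List.map_congr_left
    intro k hk
    rw [ih, line_mul_rev _ _ (mem_range'_le hk)]

/-- The walk counts along the edges with the different labels. -/
def prof (n L M : ℕ) (j : ℕ) : ℕ :=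
  hits2 (reach n n L (List.range n)) (reach n n M (flipL j (List.range n)))

theorem cnt_edge (n L M : ℕ) (π : Perm (Fin n)) (j : ℕ) (hj : j ≤ n) :
    cnt (pancake n) (L + M) π (π * rev n j) = prof n L M j := by
  have h := cnt_aut (pancake n) (leftAut n π) (L + M) 1 (rev n j)
  have h1 : leftAut n π 1 = π := by show π * 1 = π; simp
  have h2 : leftAut n π (rev n j) = π * rev n j := rfl
  rw [h1, h2] at h
  rw [h, cnt_eq_hits2, prof, line_one]
  have := line_mul_rev (1 : Perm (Fin n)) j hj
  rw [one_mul, line_one] at this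
  rw [this]

/-- The walk counts along edges separate the labels `2, ..., n`. -/
def Separates (n : ℕ) : Prop :=
  ∀ i, 2 ≤ i → i ≤ n → ∀ j, 2 ≤ j → j ≤ n → (∀ L M, prof n L M i = prof n L M j) → i = j

/-- If the walk counts separate the labels, every automorphism preserves the labels. -/
theorem aut_eq {n : ℕ} (hsep : Separates n)
    (f : pancake n ≃g pancake n) (π : Perm (Fin n)) (j : ℕ) (hj2 : 2 ≤ j) (hj : j ≤ n) :
    f (π * rev n j) = f π * rev n j := by
  have h1 : (pancake n).Adj (f π) (f (π * rev n j)) := f.map_adj_iff.2 ⟨j, hj2, hj, rfl⟩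
  obtain ⟨i, hi2, hi, hfi⟩ := h1
  have h3 : i = j := by
    apply hsep i hi2 hi j hj2 hj
    intro L M
    have h2 := cnt_aut (pancake n) f (L + M) π (π * rev n j)
    rw [cnt_edge n L M π j hj, hfi, cnt_edge n L M (f π) i hi] at h2
    exact h2
  rw [hfi, h3]

theorem order_of_symm {n : ℕ} (hsep : Separates n) (x : ℕ → Perm (Fin n))
    (hx : IsHamCycle (pancake n) x) (k : ℕ) (hk : KSymm (pancake n) x k) :
    ∃ g : Perm (Fin n), orderOf g = k := by
  obtain ⟨hdvd, f, hf⟩ := hk
  set N := Fintype.card (Perm (Fin n)) with hN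
  have hNpos : 0 < N := by have := hx.three; omega
  obtain ⟨m, hm⟩ := hdvd
  have hkpos : 0 < k := by
    rcases Nat.eq_zero_or_pos k with h | h
    · subst h; omega
    · exact h
  have hmpos : 0 < m := by
    rcases Nat.eq_zero_or_pos m with h | h
    · subst h; omega
    · exact h
  have hNk : N / k = m := by rw [hm]; exact Nat.mul_div_cancel_left _ hkpos
  set g : Perm (Fin n) := f (x 0) * (x 0)⁻¹ with hg
  have h1 : ∀ i, f (x i) = g * x i := by
    intro i
    induction i with
    | zero => rw [hg]; simp [mul_assoc]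
    | succ i ih =>
      obtain ⟨j, hj2, hj, hxj⟩ := hx.adj i
      rw [hxj, aut_eq hsep f (x i) j hj2 hj, ih, mul_assoc]
  clear_value g
  have h2 : ∀ i, x (i + m) = g * x i := by
    intro i
    rw [← h1 i, hf i, hNk]
  have h3 : ∀ a, x (a * m) = g ^ a * x 0 := by
    intro a
    induction a with
    | zero => simp
    | succ a ih => rw [show (a + 1) * m = a * m + m by ring, h2, ih, pow_succ', mul_assoc]
  have h4 : g ^ k = 1 := by
    have h5 := h3 k
    rw [← hm] at h5
    have h6 := hx.per 0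
    rw [Nat.zero_add] at h6
    rw [h6] at h5
    exact (mul_eq_right.1 h5.symm)
  have h5 : orderOf g ∣ k := orderOf_dvd_of_pow_eq_one h4
  have h6 : 0 < orderOf g := orderOf_pos g
  refine ⟨g, ?_⟩
  by_contra hne
  have h7 : orderOf g < k := lt_of_le_of_ne (Nat.le_of_dvd hkpos h5) hne
  have h8 : x (orderOf g * m) = x 0 := by rw [h3, pow_orderOf_eq_one, one_mul]
  have h9 : orderOf g * m < N := by rw [hm]; exact Nat.mul_lt_mul_of_pos_right h7 hmpos
  have h10 := hx.inj _ h9 0 hNpos h8
  have h11 : 0 < orderOf g * m := Nat.mul_pos h6 hmpos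
  omega

theorem kappa_le_of {n B : ℕ} (hsep : Separates n) (hB : ∀ g : Perm (Fin n), orderOf g ≤ B) :
    kappa (pancake n) ≤ B := by
  apply kappa_le
  intro x hx k hk
  obtain ⟨g, hg⟩ := order_of_symm hsep x hx k hk
  rw [← hg]
  exact hB g

theorem order_le {n B : ℕ}
    (h : ∀ T ∈ (Finset.Icc 2 n).powerset, T.sum id ≤ n → T.lcm id ≤ B) (g : Perm (Fin n)) :
    orderOf g ≤ B := by
  have hsum : g.cycleType.sum ≤ n := by
    rw [Equiv.Perm.sum_cycleType]
    exact (Finset.card_le_univ _).trans (le_of_eq (Fintype.card_fin n))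
  rw [← Equiv.Perm.lcm_cycleType, ← Multiset.lcm_dedup]
  have key := h g.cycleType.toFinset ?_ ?_
  · rw [Finset.lcm_def] at key
    simpa [Multiset.toFinset_val] using key
  · rw [Finset.mem_powerset]
    intro a ha
    rw [Multiset.mem_toFinset] at ha
    rw [Finset.mem_Icc]
    exact ⟨Equiv.Perm.two_le_of_mem_cycleType ha, (Multiset.le_sum_of_mem ha).trans hsum⟩
  · refine le_trans ?_ hsum
    obtain ⟨t, ht⟩ := Multiset.le_iff_exists_add.1 (Multiset.dedup_le g.cycleType)
    have h1 : g.cycleType.toFinset.sum id = g.cycleType.dedup.sum := by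
      rw [Finset.sum_eq_multiset_sum, Multiset.toFinset_val, Multiset.map_id]
    rw [h1]
    conv_rhs => rw [ht]
    rw [Multiset.sum_add]
    exact Nat.le_add_right _ _

theorem sep5 : Separates 5 := by
  have h2 : prof 5 4 3 2 = 567 := by decide +kernel
  have h3 : prof 5 4 3 3 = 565 := by decide +kernel
  have h4 : prof 5 4 3 4 = 545 := by decide +kernel
  have h5 : prof 5 4 3 5 = 549 := by decide +kernel
  intro i hi2 hi5 j hj2 hj5 h
  have h := h 4 3
  interval_cases i <;> interval_cases j <;> first | rfl | (simp only [h2, h3, h4, h5] at h; omega)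

theorem sep6 : Separates 6 := by
  have a2 : prof 6 3 2 2 = 98 := by decide +kernel
  have a3 : prof 6 3 2 3 = 98 := by decide +kernel
  have a4 : prof 6 3 2 4 = 97 := by decide +kernel
  have a5 : prof 6 3 2 5 = 97 := by decide +kernel
  have a6 : prof 6 3 2 6 = 97 := by decide +kernel
  have b2 : prof 6 3 3 2 = 8 := by decide +kernel
  have b3 : prof 6 3 3 3 = 6 := by decide +kernel
  have b4 : prof 6 3 3 4 = 12 := by decide +kernel
  have b5 : prof 6 3 3 5 = 10 := by decide +kernel
  have b6 : prof 6 3 3 6 = 6 := by decide +kernel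
  intro i hi2 hi5 j hj2 hj5 h
  have ha := h 3 2
  have hb := h 3 3
  interval_cases i <;> interval_cases j <;>
    first | rfl | (simp only [a2, a3, a4, a5, a6, b2, b3, b4, b5, b6] at ha hb; omega)

set_option maxRecDepth 100000 in
theorem five_le : 6 ≤ kappa (pancake 5) := by
  refine le_kappa_of_check 5 5 [4, 2, 4, 2, 5, 3, 5, 2, 4, 5, 2, 3, 5, 4, 2, 5, 4, 2, 4, 3] 6
    ?_ ?_ (by decide) (by decide +kernel) (by decide +kernel)
  · rw [Fintype.card_perm, Fintype.card_fin]; rfl
  · rw [Fintype.card_perm, Fintype.card_fin]; decide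

theorem five : kappa (pancake 5) = 6 :=
  le_antisymm (kappa_le_of sep5 (order_le (by decide +kernel))) five_le

/-- The word of a 6-symmetric Hamiltonian cycle of `P_6`. -/
def w6 : List ℕ := [
  4, 2, 3, 4, 2, 3, 5, 3, 2, 4, 2, 5, 4, 2, 5, 6, 2, 5, 2, 4, 2, 5, 4, 2, 4, 2, 3, 4, 5, 4, 2, 4,
  2, 4, 5, 2, 6, 4, 2, 5, 4, 2, 6, 5, 4, 3, 5, 6, 4, 2, 5, 6, 5, 2, 3, 6, 2, 4, 3, 5, 3, 5, 6, 3,
  4, 3, 4, 3, 5, 4, 6, 5, 2, 3, 5, 3, 6, 4, 5, 4, 3, 4, 5, 6, 4, 3, 4, 5, 6, 4, 6, 4, 3, 4, 2, 6,
  2, 4, 3, 2, 4, 2, 6, 3, 5, 2, 3, 6, 2, 3, 4, 5, 6, 5, 2, 6, 4, 2, 4, 3]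

/-- The word of a 12-symmetric Hamiltonian cycle of `P_7`. -/
def w7 : List ℕ := [
  2, 6, 2, 7, 5, 6, 7, 2, 5, 3, 6, 5, 3, 6, 5, 3, 7, 4, 6, 4, 3, 7, 5, 3, 7, 5, 3, 2, 5, 7, 2, 3,
  5, 2, 7, 5, 2, 3, 4, 6, 4, 3, 5, 4, 5, 2, 4, 6, 3, 5, 3, 2, 4, 7, 2, 6, 4, 2, 5, 7, 6, 4, 2, 7,
  6, 4, 2, 6, 2, 7, 3, 7, 3, 5, 6, 5, 4, 7, 5, 6, 7, 4, 5, 4, 3, 2, 7, 4, 2, 4, 5, 2, 4, 7, 4, 2,
  3, 4, 3, 7, 6, 5, 4, 2, 3, 7, 3, 4, 5, 6, 7, 4, 2, 5, 2, 3, 6, 7, 3, 6, 5, 4, 2, 5, 2, 6, 7, 6,
  7, 3, 6, 4, 3, 7, 3, 5, 2, 7, 5, 3, 5, 6, 7, 4, 5, 2, 7, 6, 4, 6, 7, 2, 6, 2, 7, 2, 4, 7, 5, 2,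
  7, 4, 5, 7, 4, 3, 5, 7, 6, 5, 2, 3, 4, 3, 4, 6, 7, 3, 7, 2, 5, 6, 4, 5, 6, 4, 2, 4, 3, 5, 7, 4,
  3, 4, 7, 5, 7, 2, 5, 6, 3, 4, 3, 2, 5, 6, 4, 5, 2, 7, 5, 3, 5, 3, 7, 2, 5, 7, 2, 5, 6, 7, 3, 6,
  3, 2, 5, 7, 6, 5, 6, 2, 4, 6, 4, 5, 4, 7, 6, 3, 4, 5, 2, 4, 3, 6, 7, 2, 7, 4, 5, 3, 2, 5, 4, 6,
  3, 2, 3, 6, 4, 7, 4, 6, 3, 6, 7, 5, 6, 5, 6, 5, 2, 3, 5, 6, 2, 6, 2, 4, 7, 6, 7, 6, 2, 7, 5, 4,
  5, 6, 4, 5, 6, 7, 4, 3, 6, 3, 4, 3, 5, 3, 4, 7, 2, 3, 7, 3, 4, 7, 2, 4, 6, 3, 5, 3, 6, 7, 6, 3,
  7, 6, 2, 6, 3, 6, 2, 5, 3, 6, 4, 7, 5, 6, 2, 4, 7, 6, 3, 2, 5, 4, 2, 4, 3, 6, 3, 6, 2, 4, 3, 7,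
  5, 7, 2, 3, 7, 2, 5, 2, 5, 3, 5, 4, 5, 4, 6, 4, 2, 4, 3, 4, 7, 3, 2, 6, 5, 4, 3, 7, 2, 7, 3, 6,
  5, 4, 2, 4, 7, 6, 7, 6, 5, 7, 4, 2, 6, 3, 6, 4, 3, 6, 2, 3, 6, 4, 2, 3, 6, 2, 7, 3, 2, 5, 3, 5,
  6, 4, 3, 7]

set_option maxRecDepth 100000 in
theorem six_le : 6 ≤ kappa (pancake 6) := by
  refine le_kappa_of_check 6 6 w6 6
    ?_ ?_ (by decide +kernel) (by decide +kernel) (by decide +kernel)
  · rw [Fintype.card_perm, Fintype.card_fin]; decide +kernel
  · rw [Fintype.card_perm, Fintype.card_fin]; decide +kernel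

theorem six : kappa (pancake 6) = 6 :=
  le_antisymm (kappa_le_of sep6 (order_le (by decide +kernel))) six_le

theorem p7a2 : prof 7 3 2 2 = 147 := by decide +kernel
theorem p7a3 : prof 7 3 2 3 = 147 := by decide +kernel
theorem p7a4 : prof 7 3 2 4 = 146 := by decide +kernel
theorem p7a5 : prof 7 3 2 5 = 146 := by decide +kernel
theorem p7a6 : prof 7 3 2 6 = 146 := by decide +kernel
theorem p7a7 : prof 7 3 2 7 = 146 := by decide +kernel
theorem p7b2 : prof 7 3 3 2 = 10 := by decide +kernel
theorem p7b3 : prof 7 3 3 3 = 6 := by decide +kernel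
theorem p7b4 : prof 7 3 3 4 = 12 := by decide +kernel
theorem p7b5 : prof 7 3 3 5 = 12 := by decide +kernel
theorem p7b6 : prof 7 3 3 6 = 10 := by decide +kernel
theorem p7b7 : prof 7 3 3 7 = 6 := by decide +kernel
theorem p7c4 : prof 7 4 3 4 = 2195 := by decide +kernel
theorem p7c5 : prof 7 4 3 5 = 2194 := by decide +kernel

set_option maxHeartbeats 4000000 in
theorem sep7 : Separates 7 := by
  intro i hi2 hi5 j hj2 hj5 h
  have ha := h 3 2
  have hb := h 3 3
  have hc := h 4 3
  clear h
  interval_cases i <;> interval_cases j <;>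
    first
    | rfl
    | (clear hb hc; simp only [p7a2, p7a3, p7a4, p7a5, p7a6, p7a7] at ha; omega)
    | (clear ha hc; simp only [p7b2, p7b3, p7b4, p7b5, p7b6, p7b7] at hb; omega)
    | (clear ha hb; simp only [p7c4, p7c5] at hc; omega)

set_option maxRecDepth 100000 in
theorem seven_le : 12 ≤ kappa (pancake 7) := by
  refine le_kappa_of_check 7 7 w7 12
    ?_ ?_ (by decide +kernel) (by decide +kernel) (by decide +kernel)
  · rw [Fintype.card_perm, Fintype.card_fin]; decide +kernel
  · rw [Fintype.card_perm, Fintype.card_fin]; decide +kernel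

theorem seven : kappa (pancake 7) = 12 :=
  le_antisymm (kappa_le_of sep7 (order_le (by decide +kernel))) seven_le

/-- The Hamilton compression of the pancake graphs `P_5`, `P_6`, `P_7`. -/
theorem result : kappa (pancake 5) = 6 ∧ kappa (pancake 6) = 6 ∧ kappa (pancake 7) = 12 :=
  ⟨five, six, seven⟩

end Pool.Agent.Results.MP_2ae182_co.Small
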